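import Pool.Agent.Helper26.AF.Goals
import Pool.Agent.Helper26.AF.Goals2

/-!
# Project AF (MP_af6c86_pr): packet AF-GCO, a good core forces the genus
-/

set_option autoImplicit false

namespace Pool.Agent.Helper5.AF

open Finset Pool.Agent.Helper26.AF

section transport

variable {D E : Type} (φ : D ≃ E)

/-- transport of a permutation -/
def tr (π : Equiv.Perm E) : Equiv.Perm D := (φ.trans π).trans φ.symm

theorem tr_apply (π : Equiv.Perm E) (d : D) : tr φ π d = φ.symm (π (φ d)) := rfl

theorem tr_mul (π ρ : Equiv.Perm E) : tr φ (π * ρ) = tr φ π * tr φ ρ := by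
  ext d
  simp [tr_apply, Equiv.Perm.mul_apply]

theorem tr_one : tr φ (1 : Equiv.Perm E) = 1 := by
  ext d
  simp [tr_apply]

/-- transport as a homomorphism -/
def trHom : Equiv.Perm E →* Equiv.Perm D where
  toFun := tr φ
  map_one' := tr_one φ
  map_mul' := tr_mul φ

theorem sameCycle_tr (π : Equiv.Perm E) (d d' : D) :
    (tr φ π).SameCycle d d' ↔ π.SameCycle (φ d) (φ d') := by
  have h : ∀ i : ℤ, (tr φ π) ^ i = tr φ (π ^ i) := by
    intro i
    exact (map_zpow (trHom φ) π i).symm
  constructor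
  · rintro ⟨i, hi⟩
    refine ⟨i, ?_⟩
    rw [h i, tr_apply] at hi
    rw [← hi, Equiv.apply_symm_apply]
  · rintro ⟨i, hi⟩
    refine ⟨i, ?_⟩
    rw [h i, tr_apply, hi, Equiv.symm_apply_apply]

theorem orb_tr (π : Equiv.Perm E) : orb (tr φ π) = orb π := by
  unfold orb
  refine Nat.card_congr (Quotient.congr φ ?_)
  intro a b
  exact sameCycle_tr φ π a b

end transport

section main

variable {n s : ℕ} (e : Fin s ↪ Fin n) (Γ : SimpleGraph (Fin s))

/-- the darts of the image -/
def dm (d : Γ.Dart) : (Γ.map e).Dart :=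
  ⟨(e d.fst, e d.snd), (SimpleGraph.map_adj_apply (G := Γ) (f := e)).2 d.adj⟩

theorem dm_fst (d : Γ.Dart) : (dm e Γ d).fst = e d.fst := rfl

theorem dm_snd (d : Γ.Dart) : (dm e Γ d).snd = e d.snd := rfl

theorem dm_bij : Function.Bijective (dm e Γ) := by
  constructor
  · intro d d' h
    have h1 : e d.fst = e d'.fst := by rw [← dm_fst, h, dm_fst]
    have h2 : e d.snd = e d'.snd := by rw [← dm_snd, h, dm_snd]
    apply SimpleGraph.Dart.ext
    exact Prod.ext (e.injective h1) (e.injective h2)
  · intro d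
    obtain ⟨a, b, hab, ha, hb⟩ := (SimpleGraph.map_adj e Γ d.fst d.snd).1 d.adj
    refine ⟨⟨(a, b), hab⟩, ?_⟩
    apply SimpleGraph.Dart.ext
    exact Prod.ext ha hb

/-- the equivalence of the darts -/
noncomputable def de : Γ.Dart ≃ (Γ.map e).Dart := Equiv.ofBijective _ (dm_bij e Γ)

theorem de_fst (d : Γ.Dart) : (de e Γ d).fst = e d.fst := rfl

theorem tr_rev : tr (de e Γ) (rev (Γ.map e)) = rev Γ := by
  ext1 d
  rw [tr_apply, Equiv.symm_apply_eq]
  apply SimpleGraph.Dart.ext
  rfl

theorem card_out : Nat.card {v : Fin n // v ∉ Set.range e} = n - s := by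
  classical
  have h1 : Nat.card {v : Fin n // v ∉ Set.range e}
      = Nat.card {v : Fin n // v ∈ (Finset.univ.map e)ᶜ} := by
    refine Nat.card_congr (Equiv.subtypeEquivRight fun v => ?_)
    simp
  rw [h1, Nat.card_eq_fintype_card, Fintype.card_coe, Finset.card_compl, Finset.card_map,
    Finset.card_univ, Fintype.card_fin, Fintype.card_fin]

theorem not_adj_out {v : Fin n} (hv : v ∉ Set.range e) (w : Fin n) : ¬ (Γ.map e).Adj v w := by
  intro h
  obtain ⟨a, b, -, ha, -⟩ := (SimpleGraph.map_adj e Γ v w).1 h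
  exact hv ⟨a, ha⟩

theorem eq_of_reach {v w : Fin n} (hv : v ∉ Set.range e) (h : (Γ.map e).Reachable v w) :
    v = w := by
  obtain ⟨p⟩ := h
  cases p with
  | nil => rfl
  | cons hadj _ => exact absurd hadj (not_adj_out e Γ hv _)

theorem comp_ge (hc : Γ.Connected) :
    1 + (n - s) ≤ Nat.card (Γ.map e).ConnectedComponent := by
  obtain ⟨a0⟩ := hc.nonempty
  let F : Option {v : Fin n // v ∉ Set.range e} → (Γ.map e).ConnectedComponent := fun o =>
    o.elim ((Γ.map e).connectedComponentMk (e a0)) (fun v => (Γ.map e).connectedComponentMk v.1)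
  have hF : Function.Injective F := by
    intro o o' h
    rcases o with _ | v <;> rcases o' with _ | w
    · rfl
    · exfalso
      have h1 : (Γ.map e).connectedComponentMk (e a0) = (Γ.map e).connectedComponentMk w.1 := h
      have h2 := (SimpleGraph.ConnectedComponent.eq.1 h1).symm
      have h3 := eq_of_reach e Γ w.2 h2
      exact w.2 ⟨a0, h3.symm⟩
    · exfalso
      have h1 : (Γ.map e).connectedComponentMk v.1 = (Γ.map e).connectedComponentMk (e a0) := h
      have h2 := SimpleGraph.ConnectedComponent.eq.1 h1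
      have h3 := eq_of_reach e Γ v.2 h2
      exact v.2 ⟨a0, h3.symm⟩
    · have h1 : (Γ.map e).connectedComponentMk v.1 = (Γ.map e).connectedComponentMk w.1 := h
      have h2 := SimpleGraph.ConnectedComponent.eq.1 h1
      have h3 := eq_of_reach e Γ v.2 h2
      exact congrArg some (Subtype.ext h3)
  have h1 := Nat.card_le_card_of_injective F hF
  have h2 : Nat.card (Option {v : Fin n // v ∉ Set.range e}) = (n - s) + 1 := by
    rw [Finite.card_option, card_out]
  omega

theorem ne_ge : ne Γ ≤ ne (Γ.map e) := by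
  unfold ne
  have f := (SimpleGraph.Embedding.map e Γ).mapEdgeSet
  exact Nat.card_le_card_of_injective f f.injective

theorem iso_le (hd : ∀ v, 2 ≤ dg Γ v) :
    Nat.card {v : Fin n // ∀ w, ¬ (Γ.map e).Adj v w} ≤ n - s := by
  rw [← card_out e]
  have key : ∀ v : Fin n, (∀ w, ¬ (Γ.map e).Adj v w) → v ∉ Set.range e := by
    rintro v hv ⟨a, rfl⟩
    have h1 := hd a
    unfold dg at h1
    have h2 : Nonempty (Γ.neighborSet a) := by
      by_contra h
      rw [not_nonempty_iff] at h
      rw [Nat.card_of_isEmpty] at h1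
      omega
    obtain ⟨b, hb⟩ := h2
    exact hv (e b) ((SimpleGraph.map_adj_apply (G := Γ) (f := e)).2 hb)
  refine Nat.card_le_card_of_injective
    (fun v : {v : Fin n // ∀ w, ¬ (Γ.map e).Adj v w} =>
      (⟨v.1, key v.1 v.2⟩ : {v : Fin n // v ∉ Set.range e})) ?_
  intro v w h
  have h1 : v.1 = w.1 := (Subtype.mk.injEq _ _ _ _).mp h
  exact Subtype.ext h1

end main

/-- PACKET GCO (a good core forces the genus). -/
theorem goalGCO (hMONO : StmtMONO) : StmtGCO := by
  intro n s r b g G e Γ hle hT hlt hE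
  obtain ⟨hc, hd, hne, hb⟩ := hT
  have h1 : Γ.map e ≤ G := (SimpleGraph.map_le_iff_le_comap e Γ G).2 hle
  obtain ⟨σ', hσ', hin⟩ := hMONO (Fin n) G (Γ.map e) g h1 hE
  have hrot : IsRot Γ (tr (de e Γ) σ') := by
    constructor
    · intro d
      apply e.injective
      rw [← de_fst e Γ, tr_apply, Equiv.apply_symm_apply, hσ'.src, de_fst]
    · intro d d' hdd
      rw [sameCycle_tr]
      apply hσ'.cyc
      rw [de_fst, de_fst, hdd]
  have horb : orb (σ' * rev (Γ.map e)) ≤ b := by
    have h2 := hb _ hrot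
    rw [← tr_rev e Γ, ← tr_mul, orb_tr] at h2
    exact h2
  have h3 := comp_ge e Γ hc
  have h4 := ne_ge e Γ
  have h5 := iso_le e Γ hd
  have h6 : Nat.card (Fin n) = n := by simp
  have h7 : s ≤ n := by
    have := Fintype.card_le_of_embedding e
    simpa using this
  unfold faces at hin
  rw [h6] at hin
  omega

end Pool.Agent.Helper5.AF
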